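import Pool.Agent.MP_1246c0_nt.H25.SpecU

/-! From boxes to the hyperbola. -/

namespace Pool.Agent.MP_1246c0_nt.H25

open Finset Function
open Pool.Agent.MP_1246c0_nt.H12

namespace BOX

theorem boxes {θ : ℝ} (h0 : 0 < θ) (h1 : θ ≤ 1) (T : ℕ) : ∃ (J : ℕ) (j U : ℕ → ℕ),
    (J : ℝ) ≤ 2 * Real.log T / θ + 2 ∧ ∀ y ∈ Icc 1 T, j y < J ∧ y ≤ U (j y) ∧
      (U (j y) : ℝ) ≤ (1 + θ) * y := by
  have hb : 1 < 1 + θ := lt_add_of_pos_right 1 h0
  have hT := Real.log_natCast_nonneg T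
  refine ⟨⌊2 * Real.log T / θ⌋₊ + 1, fun y => ⌊Real.logb (1 + θ) y⌋₊,
    fun j => ⌊(1 + θ) ^ (j + 1)⌋₊, ?_, fun y hy => ?_⟩
  · have := Nat.floor_le (by positivity : 0 ≤ 2 * Real.log T / θ)
    push_cast
    linarith
  rw [mem_Icc] at hy
  have y1 : (1 : ℝ) ≤ y := Nat.one_le_cast.2 hy.1
  have y0 : (0 : ℝ) < y := one_pos.trans_le y1
  refine ⟨Nat.lt_succ_of_le (Nat.floor_mono ?_), Nat.le_floor ?_,
    (Nat.floor_le (by positivity)).trans ?_⟩
  · have h2 : θ / 2 ≤ Real.log (1 + θ) := by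
      refine le_trans ?_ (Real.one_sub_inv_le_log_of_pos (by positivity))
      rw [le_sub_comm, inv_le_iff_one_le_mul₀ (by positivity)]
      nlinarith
    rw [Real.logb, mul_comm, ← div_div_eq_mul_div]
    exact div_le_div₀ hT (Real.log_le_log y0 (Nat.cast_le.2 hy.2)) (by positivity) h2
  · have := (Real.logb_lt_iff_lt_rpow hb y0).1 (Nat.lt_floor_add_one (Real.logb (1 + θ) y))
    rw [← Nat.cast_succ, Real.rpow_natCast] at this
    exact this.le
  · have := (Real.le_logb_iff_rpow_le hb y0).1 (Nat.floor_le (Real.logb_nonneg hb y1))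
    rw [Real.rpow_natCast] at this
    rw [pow_succ']
    exact mul_le_mul_of_nonneg_left this (by positivity)

variable {ι D : Type} [Fintype ι] [DecidableEq ι] [Fintype D] [DecidableEq D] {e : D → ι}

theorem red (T : ℕ) (G : (ι → ℕ) → ℝ) (h : ∀ x i, x i = 0 → G x = 0) :
    (∑ x ∈ Fintype.piFinset fun _ : ι => range (T + 1), if ∏ i, x i ≤ T then G x else 0) =
      ∑ x ∈ Fintype.piFinset fun _ : ι => Icc 1 T with ∏ i, x i ≤ T, G x := by
  rw [sum_filter]
  refine (sum_subset (Fintype.piFinset_subset _ _ fun _ y hy => ?_) fun x hx hx' => ?_).symm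
  · exact mem_range.2 (Nat.lt_succ_of_le (mem_Icc.1 hy).2)
  · simp only [Fintype.mem_piFinset, mem_range, mem_Icc, not_forall] at hx hx'
    obtain ⟨i, hi⟩ := hx'
    have := hx i
    rw [h x i (by omega), ite_self]

omit [Fintype ι] [DecidableEq ι] [Fintype D] [DecidableEq D] in
theorem ext_ext (he : e.Injective) (y y' : D → ℕ) (x : ι → ℕ) :
    extend e y (extend e y' x) = extend e y x := by
  funext i
  by_cases h : ∃ o, e o = i
  · obtain ⟨o, rfl⟩ := h
    rw [he.extend_apply, he.extend_apply]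
  · simp only [extend_apply' _ _ _ h]

omit [Fintype ι] [DecidableEq ι] [Fintype D] [DecidableEq D] in
theorem ext_self (he : e.Injective) (x : ι → ℕ) : extend e (fun o => x (e o)) x = x := by
  funext i
  by_cases h : ∃ o, e o = i
  · obtain ⟨o, rfl⟩ := h
    rw [he.extend_apply]
  · rw [extend_apply' _ _ _ h]

omit [Fintype ι] [DecidableEq ι] [Fintype D] [DecidableEq D] in
theorem ext_mem (he : e.Injective) {s : Finset ℕ} {y : D → ℕ} {x : ι → ℕ} (hy : ∀ o, y o ∈ s)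
    (hx : ∀ i, x i ∈ s) (i : ι) : extend e y x i ∈ s := by
  by_cases h : ∃ o, e o = i
  · obtain ⟨o, rfl⟩ := h
    rw [he.extend_apply]
    exact hy o
  · rw [extend_apply' _ _ _ h]
    exact hx i

omit [DecidableEq D] in
theorem prod_ext (he : e.Injective) (y : D → ℕ) (x : ι → ℕ) :
    ∏ i, extend e y x i = (∏ o, y o) * ∏ i, extend e (fun _ => 1) x i := by
  have h : ∀ y : D → ℕ, ∏ i, extend e y x i =
      (∏ o, y o) * ∏ i ∈ (univ.map ⟨e, he⟩)ᶜ, x i := fun y => by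
    rw [← prod_mul_prod_compl (univ.map ⟨e, he⟩), prod_map]
    refine congrArg₂ _ (prod_congr rfl fun o _ => he.extend_apply _ _ o)
      (prod_congr rfl fun i hi => extend_apply' _ _ _ ?_)
    simpa using hi
  rw [h, h, prod_const_one, one_mul]

theorem harm (T : ℕ) : ∑ x ∈ Fintype.piFinset fun _ : ι => Icc 1 T, ((∏ i, x i : ℕ) : ℝ)⁻¹ ≤
    (Real.log T + 2) ^ Fintype.card ι := by
  simp only [Nat.cast_prod, ← prod_inv_distrib]
  rw [← prod_univ_sum (fun _ : ι => Icc 1 T) fun _ y => (y : ℝ)⁻¹, prod_const, card_univ]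
  refine pow_le_pow_left₀ (by positivity) ?_ _
  have := harmonic_le_one_add_log T
  rw [harmonic_eq_sum_Icc] at this
  push_cast at this
  linarith

end BOX

theorem rowBOX : SBOX := by
  classical
  intro ι D Ω _ _ _ _ _ e T c F ω η δ θ he hη hδ h0 h1 hF hω H
  obtain ⟨J, j, U, hJ, hj⟩ := BOX.boxes h0 h1 T
  have w0 : ∀ x, 0 ≤ ω x := fun x => (abs_nonneg _).trans (hF x)
  have i0 : ∀ p : Prop, 0 ≤ ind p := fun p => by unfold ind; split_ifs <;> norm_num
  rw [BOX.red T F fun x i h => abs_nonpos_iff.1 ((hF x).trans_eq (hω x i h)), BOX.red T ω hω,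
    BOX.red T _ fun x i h => by rw [hω x i h, zero_mul]]
  set S : Finset (ι → ℕ) := {x ∈ Fintype.piFinset fun _ : ι => Icc 1 T | ∏ i, x i ≤ T} with hS
  have mS : ∀ x, x ∈ S ↔ (∀ i, x i ∈ Icc 1 T) ∧ ∏ i, x i ≤ T := fun x => by
    rw [hS, mem_filter, Fintype.mem_piFinset]
  set κ : (ι → ℕ) → (ι → ℕ) × (D → ℕ × Ω) := fun x => (extend e (fun _ => 1) x,
    fun o => (j (x (e o)), c (extend e (fun _ => 1) x) (x (e o)))) with hκ
  have p1 : ∀ x : ι → ℕ, (∀ i, x i ∈ Icc 1 T) → 1 ≤ ∏ i, x i := fun x hx =>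
    one_le_prod' fun i _ => (mem_Icc.1 (hx i)).1
  have x1 : ∀ x ∈ S, ∀ i, extend e (fun _ => 1) x i ∈ Icc 1 T := fun x hx =>
    BOX.ext_mem he (fun _ => mem_Icc.2 ⟨le_rfl, (p1 x ((mS x).1 hx).1).trans ((mS x).1 hx).2⟩)
      ((mS x).1 hx).1
  have hm : ∀ x ∈ S, κ x ∈ (Fintype.piFinset fun _ : ι => Icc 1 T) ×ˢ
      Fintype.piFinset fun _ : D => range J ×ˢ (univ : Finset Ω) := fun x hx =>
    mem_product.2 ⟨Fintype.mem_piFinset.2 (x1 x hx), Fintype.mem_piFinset.2 fun o =>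
      mem_product.2 ⟨mem_range.2 (hj _ (((mS x).1 hx).1 _)).1, mem_univ _⟩⟩
  rw [← sum_fiberwise_of_maps_to hm F, ← sum_fiberwise_of_maps_to hm ω,
    ← sum_fiberwise_of_maps_to hm fun x => ω x * _, mul_sum, ← sum_add_distrib]
  refine (abs_sum_le_sum_abs _ _).trans ((sum_le_sum (g := fun z => η * ∑ x ∈ S with κ x = z, ω x +
    ∑ x ∈ S with κ x = z, ω x * ind (T < (1 + θ) ^ Fintype.card D * ∏ i, (x i : ℝ)) +
      δ * T * ((∏ i, z.1 i : ℕ) : ℝ)⁻¹) fun z _ => ?_).trans ?_)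
  swap
  · rw [sum_add_distrib, add_le_add_iff_left, ← mul_sum, sum_product, mul_assoc (δ * T)]
    simp only [sum_const, Fintype.card_piFinset, prod_const, card_product, card_range, card_univ,
      nsmul_eq_mul, ← mul_sum]
    refine mul_le_mul_of_nonneg_left (mul_le_mul ?_ (BOX.harm T) (by positivity)
      (pow_nonneg (mul_nonneg (Nat.cast_nonneg _) ((Nat.cast_nonneg _).trans hJ)) _))
        (by positivity)
    push_cast
    rw [mul_comm]
    gcongr
  have n1 : 0 ≤ η * ∑ x ∈ S with κ x = z, ω x := mul_nonneg hη (sum_nonneg fun x _ => w0 x)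
  have n2 : 0 ≤ ∑ x ∈ S with κ x = z, ω x * ind (T < (1 + θ) ^ Fintype.card D * ∏ i, (x i : ℝ)) :=
    sum_nonneg fun x _ => mul_nonneg (w0 x) (i0 _)
  have n3 : 0 ≤ δ * T * ((∏ i, z.1 i : ℕ) : ℝ)⁻¹ := by positivity
  rcases (S.filter fun x => κ x = z).eq_empty_or_nonempty with hz | ⟨x0, hz⟩
  · rw [hz, sum_empty, abs_zero] at *
    linarith
  obtain ⟨hx0, rfl⟩ := mem_filter.1 hz
  set xs := extend e (fun _ => 1) x0 with hxs
  by_cases hg : (∏ o, U (j (x0 (e o)))) * ∏ i, xs i ≤ T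
  · set A : D → Finset ℕ := fun o => {y ∈ Icc 1 T | j y = j (x0 (e o)) ∧ c xs y = c xs (x0 (e o))}
      with hA
    have hU : ∀ o, ∀ y ∈ A o, y ≤ U (j (x0 (e o))) := fun o y hy =>
      (mem_filter.1 hy).2.1 ▸ (hj y (mem_filter.1 hy).1).2.1
    have e1 : ∀ y, extend e (fun _ => 1) (extend e y xs) = xs := fun y => by
      rw [BOX.ext_ext he, hxs, BOX.ext_ext he]
    have key : ∀ G : (ι → ℕ) → ℝ, ∑ x ∈ S with κ x = κ x0, G x =
        ∑ y ∈ Fintype.piFinset A, G (extend e y xs) := fun G => by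
      have e2 : ∀ x ∈ S.filter fun x => κ x = κ x0, extend e (fun o => x (e o)) xs = x :=
        fun x hx => by
          rw [← show extend e (fun _ => 1) x = xs from congrArg Prod.fst (mem_filter.1 hx).2,
            BOX.ext_ext he, BOX.ext_self he]
      refine sum_nbij' (fun x o => x (e o)) (fun y => extend e y xs) (fun x hx => ?_)
        (fun y hy => ?_) e2 (fun y _ => funext fun o => he.extend_apply _ _ o)
        fun x hx => by rw [e2 x hx]
      · obtain ⟨a1, a2⟩ := mem_filter.1 hx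
        simp only [hκ, Prod.mk.injEq, funext_iff (f := fun o => (j _, _)), ← hxs] at a2
        exact Fintype.mem_piFinset.2 fun o => mem_filter.2 ⟨((mS x).1 a1).1 _, (a2.2 o).1,
          a2.1 ▸ (a2.2 o).2⟩
      · have a1 := Fintype.mem_piFinset.1 hy
        refine mem_filter.2 ⟨(mS _).2 ⟨BOX.ext_mem he (fun o => (mem_filter.1 (a1 o)).1) (x1 _ hx0),
          ?_⟩, Prod.ext (e1 y) (funext fun o => ?_)⟩
        · rw [BOX.prod_ext he, hxs, BOX.ext_ext he]
          exact (Nat.mul_le_mul_right _ (prod_le_prod' fun o _ => hU o _ (a1 o))).trans hg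
        · simp only [hκ, e1, he.extend_apply, ← hxs, (mem_filter.1 (a1 o)).2]
    have p2 := p1 _ (x1 _ hx0)
    have h2 := H xs A (fun o => U (j (x0 (e o)))) (fun o y hy => ⟨hU o y hy, fun y' hy' =>
      (mem_filter.1 hy).2.2.trans (mem_filter.1 hy').2.2.symm⟩)
      ((Nat.le_mul_of_pos_right _ p2).trans hg)
    have h3 : ∏ o, (U (j (x0 (e o))) : ℝ) ≤ T * ((∏ i, xs i : ℕ) : ℝ)⁻¹ := by
      rw [le_mul_inv_iff₀ (Nat.cast_pos.2 p2)]
      exact_mod_cast hg
    rw [← key, ← key] at h2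
    have := mul_le_mul_of_nonneg_left h3 hδ
    rw [← mul_assoc] at this
    linarith
  · refine (abs_sum_le_sum_abs _ _).trans (le_trans (sum_le_sum fun x hx => ?_)
      ((le_add_of_nonneg_left n1).trans (le_add_of_nonneg_right n3)))
    obtain ⟨a1, a2⟩ := mem_filter.1 hx
    simp only [hκ, Prod.mk.injEq, funext_iff (f := fun o => (j _, _)), ← hxs] at a2
    rw [ind, if_pos, mul_one]
    · exact hF x
    have h2 : (T : ℝ) < (∏ o, (U (j (x0 (e o))) : ℝ)) * (∏ i, xs i : ℕ) := by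
      exact_mod_cast not_le.1 hg
    have h3 := BOX.prod_ext he (fun o => x (e o)) x
    rw [BOX.ext_self he, a2.1] at h3
    rw [← Nat.cast_prod, h3, Nat.cast_mul, ← mul_assoc, Nat.cast_prod, ← card_univ, ← prod_const,
      ← prod_mul_distrib]
    refine h2.trans_le (mul_le_mul_of_nonneg_right (prod_le_prod (fun _ _ => Nat.cast_nonneg _)
      fun o _ => ?_) (Nat.cast_nonneg _))
    rw [← (a2.2 o).1]
    exact (hj _ (((mS x).1 a1).1 _)).2.2

end Pool.Agent.MP_1246c0_nt.H25
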