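import Pool.Agent.MP_1246c0_nt.H25.SpecC

/-! The criterion. -/

namespace Pool.Agent.MP_1246c0_nt.H25

open Pool.Agent.MP_1246c0_nt.H12

theorem rowCRT : OfCRT := by
  intro hCC hCR hLW hHI ι _ _ S pr P A J i1 hS hL hJ hG
  obtain ⟨h1, h2, -⟩ := hCC.lab ι S.Φ pr P i1 hS.one hL
  obtain ⟨O, _, _, _, _, _, t, n, a, ψ, h3, h4, h5⟩ := hCR S.Φ (dd pr P) P
    (J * (tt (dd pr P) + 1 + 1) + 1) hS.one h1 h2 hL.prime hL.md (Dvd.intro _ rfl) hG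
    (Nat.le_add_left _ _)
  rcases le_or_gt a A with h | h
  · obtain ⟨ℓ, μ, e1, e2, e3, e4, e5⟩ := hLW ι S.Φ pr P i1 O t _ J (A + J) n a ψ hS.one hL hJ
      (Nat.add_le_add_right h J) h3 h4 h5
    exact Or.inl ⟨ℓ, μ, e1, e2.trans_le h, e3, e4, e5⟩
  · exact Or.inr ⟨a, h, hHI ι O S pr P n _ a i1 t ψ hS hL (by nlinarith) h5⟩

end Pool.Agent.MP_1246c0_nt.H25
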