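import Pool.Agent.MP_1246c0_nt.H25.SpecG

/-! Cancellation on a grid of primes. -/

namespace Pool.Agent.MP_1246c0_nt.H25

open Finset Matrix Function
open Pool.Agent.MP_1246c0_nt.H12

namespace GRT

theorem fib {X K : Type} [DecidableEq K] (V : Finset X) (c : X → K) (f : X → ℝ) {N : ℕ} {B : ℝ}
    (h0 : 0 ≤ B) (hN : (V.image c).card ≤ N) (hB : ∀ y ∈ V, |∑ x ∈ V with c x = c y, f x| ≤ B) :
    |∑ x ∈ V, f x| ≤ N * B := by
  rw [← sum_fiberwise_of_maps_to (g := c) (t := V.image c) fun x hx => mem_image_of_mem c hx]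
  refine (abs_sum_le_sum_abs _ _).trans ((sum_le_card_nsmul _ _ B fun z hz => ?_).trans ?_)
  · obtain ⟨y, hy, rfl⟩ := mem_image.1 hz
    exact hB y hy
  · rw [nsmul_eq_mul]
    exact mul_le_mul_of_nonneg_right (Nat.cast_le.2 hN) h0

theorem ite_ind (p q : Prop) [Decidable p] : (if p then ind q else 0) = ind (p ∧ q) := by
  by_cases h : p <;> by_cases h' : q <;> simp [ind, h, h']

variable {ι : Type} [DecidableEq ι] {k : ℕ}

theorem tab_eq (S : Sy) (n P : ℕ) (e : Option (Fin k) ↪ ι) (b : ι) (xs x x' : ι → ℕ)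
    (h1 : ∀ l, (¬∃ o, e o = l) → x l = xs l ∧ x' l = xs l)
    (h2 : ∀ o, cl S n P e b xs (x (e o)) = cl S n P e b xs (x' (e o)))
    (h3 : ∀ o o' : Option (Option (Fin k)), (tab S n x P).2 (o.elim b e) (o'.elim b e) =
      (tab S n x' P).2 (o.elim b e) (o'.elim b e)) : tab S n x P = tab S n x' P := by
  have h4 : ∀ o l, ¬((∃ o, e o = l) ∨ l = b) →
      fl S n (x (e o)) (S.Φ.fr (xs l)) = fl S n (x' (e o)) (S.Φ.fr (xs l)) ∧
      fl S n (xs l) (S.Φ.fr (x (e o))) = fl S n (xs l) (S.Φ.fr (x' (e o))) := fun o l hl => by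
    have := congrFun (congrArg (fun y => y.2.2) (h2 o)) l
    simpa only [cl, if_neg hl, Prod.mk.injEq] using this
  have h5 : ∀ l, (∃ o, e o = l) ∨ l = b → ∃ o : Option (Option (Fin k)), o.elim b e = l := by
    rintro l (⟨o, rfl⟩ | rfl)
    exacts [⟨some o, rfl⟩, ⟨none, rfl⟩]
  refine Prod.ext (funext fun l => ?_) (funext fun l => funext fun l' => ?_)
  · by_cases h : ∃ o, e o = l
    · obtain ⟨o, rfl⟩ := h
      exact congrArg Prod.fst (h2 o)
    · simp only [tab, h1 l h]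
  · by_cases h : (∃ o, e o = l) ∨ l = b
    · by_cases h' : (∃ o, e o = l') ∨ l' = b
      · obtain ⟨o, rfl⟩ := h5 l h
        obtain ⟨o', rfl⟩ := h5 l' h'
        exact h3 o o'
      · by_cases h'' : ∃ o, e o = l
        · obtain ⟨o, rfl⟩ := h''
          simp only [tab, h1 l' fun e => h' (.inl e), h4 o l' h']
        · simp only [tab, h1 l' fun e => h' (.inl e), h1 l h'']
    · by_cases h'' : ∃ o, e o = l'
      · obtain ⟨o, rfl⟩ := h''
        simp only [tab, h1 l fun e => h (.inl e), h4 o l h]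
      · simp only [tab, h1 l fun e => h (.inl e), h1 l' h'']

theorem dbl {α β : Type} [Fintype α] [Fintype β] (W : Set α) (U : Set β) (c I : α → β → ℝ) {B : ℝ}
    (hc : ∀ w v, |c w v| ≤ 1) (h1 : ∀ w v, |I w v| ≤ B) (h2 : ∀ w v, ¬(w ∈ W ∧ v ∈ U) → I w v = 0) :
    |∑ w, ∑ v, c w v * I w v| ≤ (W.ncard * U.ncard : ℕ) * B := by
  classical
  rw [← sum_product', ← sum_subset (s₁ := W.toFinset ×ˢ U.toFinset) (by simp)
    fun p _ hp => by rw [h2 _ _ (by simpa using hp), mul_zero]]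
  refine (abs_sum_le_sum_abs _ _).trans ((sum_le_card_nsmul _ _ B fun p _ => ?_).trans ?_)
  · rw [abs_mul]
    exact (mul_le_of_le_one_left (abs_nonneg _) (hc _ _)).trans (h1 _ _)
  · rw [nsmul_eq_mul, card_product, Set.ncard_eq_toFinset_card', Set.ncard_eq_toFinset_card']

end GRT

theorem rowGRT : OfGRT := by
  classical
  intro hPR hZR hTAB hGRS ℓ k n κ η hk hη
  set N1 := Fintype.card (Option (Option (Fin k)) → Option (Option (Fin k)) → Co n) with hN1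
  set N : ℕ := N1 * ((2 ^ 2 ^ κ) ^ k * ((2 ^ κ) ^ (k + 1 - 2) * (2 ^ ℓ * 2 ^ κ * 2 ^ κ))) with hN
  have hN0 : (1 : ℝ) ≤ N := Nat.one_le_cast.2 (Nat.mul_pos Fintype.card_pos (by positivity))
  have hη' : 0 < η / N := div_pos hη (one_pos.trans_le hN0)
  obtain ⟨M, hM, Bd, hBd, H⟩ := hGRS ℓ k n κ (η / N) hk hη'
  refine ⟨M, hM, Bd, hBd.trans (mul_le_mul_of_nonneg_right (div_le_self hη.le hN0)
    (Nat.cast_nonneg _)), ?_⟩
  intro ι _ _ S g s u a J P i1 b e xs ζ zs ps Q φ cf hS hμ hJ hG hb hcf c1 c2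
  have H1 := fun y0 t w v => H ι S g s u a J P i1 b e xs ζ zs ps Q φ y0 t w v hS hμ hJ hG hb
  have H2 : ∀ x x', Lb x P i1 → Lb x' P i1 → tab S n x P = tab S n x' P → _ :=
    fun x x' h h' => hTAB ι ℓ S ⟨g, s, u, a, n⟩ x x' P J i1 hS h h' hμ
  have H3 : ∀ x x', (∀ o o' : Option (Option (Fin k)),
      (tab S n (tup e xs ζ ps x) P).2 (o.elim b e) (o'.elim b e) =
      (tab S n (tup e xs ζ ps x') P).2 (o.elim b e) (o'.elim b e)) → _ := fun x x' =>
    GRT.tab_eq S n P e b xs _ _ (fun l hl => ⟨extend_apply' _ _ _ hl, extend_apply' _ _ _ hl⟩)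
      fun o => by
        simp only [tup, e.injective.extend_apply]
        cases o
        exacts [c2 _ _, c1 _ _ _]
  clear H hTAB hGRS
  generalize (⟨g, s, u, a, n⟩ : Md ℓ) = μ at *
  generalize tup e xs ζ ps = T at *
  have m1 : ∀ x i, Lb x P i1 → 2 ≤ i → i ≤ k + 1 → Vs S.Φ μ x P i ⊆ Us S.Φ μ x P i1 1 ∧
      Ws S.Φ μ x P i1 i ⊆ Ws S.Φ μ x P i1 2 := fun x i h h1 h2 => by
    have := hPR.mono ι ℓ S.Φ μ x P J 2 i i1 hS.one h hμ one_le_two h1 (h2.trans hJ)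
    exact ⟨this.2.2 h1, this.2.1⟩
  have hB : 0 ≤ η / N * M ^ (k + 1) := by positivity
  rw [← sum_subset (s₁ := {x | Lb (T x) P i1 ∧ (Us S.Φ μ (T x) P i1 1).ncard ≤ 2 ^ κ})
    (subset_univ _) fun x _ hx => ?_]
  swap
  · refine mul_eq_zero_of_right _ (sum_eq_zero fun w _ => sum_eq_zero fun v _ => ?_)
    rw [ind, if_neg fun h => hx (mem_filter.2 ⟨mem_univ _, h.1, h.2.1⟩), mul_zero, zero_mul]
  refine (GRT.fib _ (fun x => tab S n (T x) P) _ (N := N1) (B := ((2 ^ 2 ^ κ) ^ k : ℕ) *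
    (((2 ^ κ) ^ (k + 1 - 2) : ℕ) * ((2 ^ ℓ * 2 ^ κ * 2 ^ κ : ℕ) * (η / N * M ^ (k + 1)))))
    (by positivity) ?_ fun y hy => ?_).trans (le_of_eq ?_)
  · refine card_le_card_of_injOn (t := univ) (fun y (o o' : Option (Option (Fin k))) =>
      y.2 (o.elim b e) (o'.elim b e)) (fun _ _ => mem_univ _) fun y hy y' hy' h => ?_
    obtain ⟨x, -, rfl⟩ := mem_image.1 hy
    obtain ⟨x', -, rfl⟩ := mem_image.1 hy'
    exact H3 x x' fun o o' => congrFun (congrFun h o) o'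
  rotate_left
  · rw [← mul_assoc, ← mul_assoc, ← mul_assoc, ← mul_assoc, mul_assoc (N1 : ℝ), mul_assoc (N1 : ℝ),
      mul_assoc _ _ (Nat.cast _), ← Nat.cast_mul, ← Nat.cast_mul, ← Nat.cast_mul, ← hN,
      mul_div_cancel₀ _ (one_pos.trans_le hN0).ne']
  obtain ⟨-, hy1, hy2⟩ := mem_filter.1 hy
  refine GRT.fib _ (fun x (i : Fin k) => (Vs S.Φ μ (T x) P (i + 2)).toFinset) _ (by positivity)
    ?_ fun z hz => ?_
  · refine (card_le_card (t := Fintype.piFinset fun _ =>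
      (Us S.Φ μ (T y) P i1 1).toFinset.powerset) fun t ht => ?_).trans ?_
    · obtain ⟨x, hx, rfl⟩ := mem_image.1 ht
      simp only [mem_filter, mem_univ, true_and] at hx
      refine Fintype.mem_piFinset.2 fun i => mem_powerset.2 (Set.toFinset_subset_toFinset.2 ?_)
      rw [← (H2 _ _ hx.1.1 hy1 hx.2).2.2.1]
      exact (m1 _ _ hx.1.1 (by omega) (by omega)).1
    · rw [Fintype.card_piFinset, prod_const, card_univ, Fintype.card_fin, card_powerset,
        ← Set.ncard_eq_toFinset_card']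
      gcongr
      exact one_le_two
  simp only [mem_filter, mem_univ, true_and] at hz
  obtain ⟨⟨hz1, hz2⟩, hz3⟩ := hz
  rw [filter_filter, filter_filter, ← hz3]
  have e1 : ∀ x, ((fun i : Fin k => (Vs S.Φ μ (T x) P (i + 2)).toFinset) =
      fun i : Fin k => (Vs S.Φ μ (T z) P (i + 2)).toFinset) ↔
      ∀ i ∈ Icc 2 (k + 1), Vs S.Φ μ (T x) P i = Vs S.Φ μ (T z) P i := fun x => by
    refine ⟨fun h i hi => ?_, fun h => funext fun i => ?_⟩
    · rw [mem_Icc] at hi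
      have := Set.toFinset_inj.1 (congrFun h ⟨i - 2, by omega⟩)
      rwa [Nat.sub_add_cancel hi.1] at this
    · rw [h _ (mem_Icc.2 ⟨by omega, by omega⟩)]
  rw [sum_congr rfl (g := fun x => vp S.Φ μ (T z) P (k + 1) * ∑ w, ∑ v,
    cf (Us S.Φ μ (T z) P i1 1) (Ws S.Φ μ (T z) P i1 2) w v *
      (ind (Lb (T x) P i1 ∧ (Us S.Φ μ (T x) P i1 1).ncard ≤ 2 ^ κ ∧ Zr S.Φ μ (T x) P i1 e ∧
        v ∈ Vg S.Φ μ (T x) P (k + 1) ∧ w ∈ Ws S.Φ μ (T x) P i1 (k + 1) ∧
        w (.inl (some b)) ⬝ᵥ v (some (e none)) = 1) * sg (pg S.Φ μ (T x) P (k + 1) w v)))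
    fun x hx => ?_]
  swap
  · simp only [mem_filter, mem_univ, true_and, e1] at hx
    have h := (H2 _ _ hx.1.1 hz1 hx.2.1).2.2
    have h' : vp S.Φ μ (T x) P (k + 1) = vp S.Φ μ (T z) P (k + 1) :=
      prod_congr rfl fun i hi => by rw [hx.2.2 i (Ico_subset_Icc_self hi)]
    simp only [fv, ← h', ← h.1, ← h.2, mul_assoc]
  rw [← mul_sum, abs_mul, Nat.abs_cast, sum_comm]
  simp_rw [sum_comm (t := (univ : Finset (Option ι → Vb ℓ))), ← mul_sum]
  rw [sum_comm]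
  refine mul_le_mul (Nat.cast_le.2 ?_) ((GRT.dbl (Ws S.Φ μ (T z) P i1 2) (Us S.Φ μ (T z) P i1 1)
    _ _ (hcf _ _) (fun w v => ?_) fun w v h => sum_eq_zero fun x hx => ?_).trans
      (mul_le_mul_of_nonneg_right (Nat.cast_le.2 ?_) hB)) (abs_nonneg _) (Nat.cast_nonneg _)
  · rw [← Nat.card_Ico]
    refine prod_le_pow_card _ _ _ fun i hi => le_trans (Set.ncard_le_ncard ?_) hz2
    rw [mem_Ico] at hi
    exact (m1 _ _ hz1 hi.1 hi.2.le).1
  · by_cases h : G3 (bar μ.g) (bar μ.s) (bar μ.u) v ∧ w (.inl (some b)) ⬝ᵥ v (some (e none)) = 1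
    · refine le_of_eq_of_le (congrArg _ ?_) (H1 (tab S n (T z) P) (Vs S.Φ μ (T z) P) w v h.2)
      rw [sum_filter]
      refine sum_congr rfl fun x _ => ?_
      rw [← ite_zero_mul, GRT.ite_ind]
      simp only [e1, Vg, Set.mem_ofPred_eq, h, and_true]
      congr 2
      refine propext ?_
      tauto
    · rw [sum_eq_zero fun x _ => ?_, abs_zero]
      · exact hB
      · rw [ind, if_neg fun h' => h ⟨h'.2.2.2.1.2, h'.2.2.2.2.2⟩, zero_mul]
  · simp only [mem_filter, mem_univ, true_and] at hx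
    have h1 := (H2 _ _ hx.1.1 hz1 hx.2.1).2.2
    have h2 := m1 _ (k + 1) hx.1.1 (by omega) le_rfl
    rw [ind, if_neg fun h' => h ⟨h1.2 ▸ h2.2 h'.2.2.2.2.1, h1.1 ▸ h2.1 h'.2.2.2.1.1⟩, zero_mul]
  · rw [(hZR ι ℓ S μ (T z) P J i1 hS hz1 hμ (by omega)).1]
    gcongr

end Pool.Agent.MP_1246c0_nt.H25
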