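import Pool.Agent.MP_1246c0_nt.H25.SpecR

/-! Zeros of polynomials over the group ring. -/

namespace Pool.Agent.MP_1246c0_nt.H25

open Polynomial Finset
open Pool.Agent.MP_1246c0_nt.H12

namespace SZ

variable {Λ : Type} [CommRing Λ] {τ : Λ} {K : ℕ}

/-- a truncated valuation ring -/
structure Vr (τ : Λ) (K : ℕ) : Prop where
  nil : IsNilpotent τ
  unit : ∀ h, ¬τ ∣ h → IsUnit h
  ne : τ ^ K ≠ 0

theorem Vr.fac (h : Vr τ K) {k : ℕ} {x : Λ} (hx : ¬τ ^ k ∣ x) :
    ∃ i < k, ∃ u, IsUnit u ∧ x = τ ^ i * u := by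
  induction k with
  | zero => simp at hx
  | succ k ih =>
    by_cases h1 : τ ^ k ∣ x
    · obtain ⟨u, rfl⟩ := h1
      exact ⟨k, k.lt_succ_self, u,
        h.unit u fun e => hx (by rw [pow_succ]; exact mul_dvd_mul_left _ e), rfl⟩
    · obtain ⟨i, h2, h3⟩ := ih h1
      exact ⟨i, h2.trans k.lt_succ_self, h3⟩

theorem Vr.not_dvd (h : Vr τ K) {i j : ℕ} (hij : i < j) (hi : i ≤ K) : ¬τ ^ j ∣ τ ^ i := by
  intro e
  obtain ⟨w, hw⟩ := (pow_dvd_pow τ (Nat.succ_le_of_lt hij)).trans e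
  have h1 : IsUnit (1 - τ * w) := ((Commute.all τ w).isNilpotent_mul_right h.nil).isUnit_one_sub
  have h2 : τ ^ i * (1 - τ * w) = 0 := by rw [mul_sub, mul_one, ← mul_assoc, ← pow_succ, ← hw, sub_self]
  exact h.ne (pow_eq_zero_of_le hi (h1.mul_left_eq_zero.1 h2))

theorem Vr.cancel (h : Vr τ K) {a k : ℕ} {x y : Λ} (hx : ¬τ ^ (a + 1) ∣ x) (hK : k + a ≤ K)
    (e : τ ^ (k + a) ∣ x * y) : τ ^ k ∣ y := by
  by_contra hy
  obtain ⟨i, hi, u, hu, rfl⟩ := h.fac hx
  obtain ⟨j, hj, v, hv, rfl⟩ := h.fac hy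
  rw [mul_mul_mul_comm, ← pow_add, (hu.mul hv).dvd_mul_right] at e
  exact h.not_dvd (by omega) (by omega) e

theorem Vr.poly (h : Vr τ K) {Z : Type} (z : Z → Λ) (a k D : ℕ) (hK : k + a * D ≤ K) :
    ∀ (F : Λ[X]) (s : Finset Z), F.natDegree ≤ D → D < s.card →
      (∀ i ∈ s, ∀ j ∈ s, i ≠ j → ¬τ ^ (a + 1) ∣ z i - z j) →
      (∀ i ∈ s, τ ^ (k + a * D) ∣ F.eval (z i)) → C (τ ^ k) ∣ F := by
  classical
  have := nontrivial_of_ne _ _ h.ne
  induction D with
  | zero =>
    intro F s hF hs _ hd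
    obtain ⟨i, hi⟩ := card_pos.1 hs
    have := hd i hi
    rw [eq_C_of_natDegree_le_zero hF, eval_C] at this
    rw [eq_C_of_natDegree_le_zero hF]
    exact map_dvd C this
  | succ D ih =>
    intro F s hF hs hz hd
    obtain ⟨i, hi⟩ := card_pos.1 (Nat.zero_lt_of_lt hs)
    have e := modByMonic_add_div F (X - C (z i))
    rw [modByMonic_X_sub_C_eq_C_eval] at e
    rw [← e]
    refine dvd_add (map_dvd C ((pow_dvd_pow τ (Nat.le_add_right _ _)).trans (hd i hi)))
      (Dvd.dvd.mul_left (ih (by nlinarith) _ (s.erase i) ?_ ?_ (fun j hj j' hj' =>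
        hz j (mem_of_mem_erase hj) j' (mem_of_mem_erase hj')) fun j hj => ?_) _)
    · rw [natDegree_divByMonic _ (monic_X_sub_C _), natDegree_X_sub_C]
      omega
    · rw [card_erase_of_mem hi]
      omega
    · refine h.cancel (hz j (mem_of_mem_erase hj) i hi (ne_of_mem_erase hj)) (by nlinarith) ?_
      have e1 := congrArg (eval (z j)) e
      simp only [eval_add, eval_C, eval_mul, eval_sub, eval_X] at e1
      rw [eq_sub_of_add_eq' e1, add_assoc, ← mul_add_one]
      exact dvd_sub (hd j (mem_of_mem_erase hj)) (hd i hi)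

/-- points and their classes -/
structure Pts {Y Z : Type} [Fintype Y] [DecidableEq Z] (τ : Λ) (p : Y → Λ) (π : Y → Z)
    (a q : ℕ) : Prop where
  sep : ∀ y y', π y ≠ π y' → ¬τ ^ (a + 1) ∣ p y - p y'
  fib : ∀ z, #{y | π y = z} ≤ q

variable {Y Z : Type} [Fintype Y] [DecidableEq Y] [DecidableEq Z] {p : Y → Λ} {π : Y → Z} {a q : ℕ}

omit [DecidableEq Y] in
open Classical in
theorem one (h : Vr τ K) (hp : Pts τ p π a q) {k D : ℕ} (hK : k + a * D ≤ K) {F : Λ[X]}
    (hF : F.natDegree ≤ D) (h0 : ¬C (τ ^ k) ∣ F) :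
    #{y | τ ^ (k + a * D) ∣ F.eval (p y)} ≤ q * D := by
  set B : Finset Y := {y | τ ^ (k + a * D) ∣ F.eval (p y)} with hB
  refine (card_le_mul_card_image (f := π) B q fun z _ =>
    (card_le_card (filter_subset_filter _ (subset_univ B))).trans (hp.fib z)).trans
      (Nat.mul_le_mul_left _ (not_lt.1 fun hlt => h0 ?_))
  have h1 : ∀ z : B.image π, ∃ y ∈ B, π y = z := fun z => mem_image.1 z.2
  choose y hy hy' using h1
  refine h.poly (fun z => p (y z)) a k D hK F univ hF (by simpa using hlt)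
    (fun i _ j _ hij => hp.sep _ _ ?_) fun i _ => (mem_filter.1 (hy i)).2
  rw [hy', hy']
  exact fun e => hij (Subtype.ext e)

open Classical in
theorem many (h : Vr τ K) (hp : Pts τ p π a q) (c D r : ℕ) (hK : c + r * (a * D) ≤ K) :
    ∀ f : MvPolynomial (Fin r) Λ, f.totalDegree ≤ D → (∃ m, ¬τ ^ c ∣ f.coeff m) →
      #{y : Fin r → Y | τ ^ (c + r * (a * D)) ∣ MvPolynomial.eval (fun i => p (y i)) f} *
        Fintype.card Y ≤ r * (q * D) * Fintype.card Y ^ r := by
  induction r with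
  | zero =>
    rintro f - ⟨m, hm⟩
    rw [card_eq_zero.2 (filter_eq_empty_iff.2 fun y _ => ?_)]
    · simp
    · rw [Subsingleton.elim m 0] at hm
      rw [f.eq_C_of_isEmpty]
      simpa using hm
  | succ r ih =>
    rintro f hf ⟨m, hm⟩
    set F := MvPolynomial.finSuccEquiv Λ r f with hF
    have hm' : ¬τ ^ c ∣ (F.coeff (m 0)).coeff m.tail := by
      rwa [MvPolynomial.finSuccEquiv_coeff_coeff, Finsupp.cons_tail]
    have g0 : F.coeff (m 0) ≠ 0 := fun e => hm' (by simp [e])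
    have h1 := ih (by nlinarith) (F.coeff (m 0)) ((Nat.le_add_right _ _).trans
      ((MvPolynomial.totalDegree_coeff_finSuccEquiv_add_le f _ g0).trans hf)) ⟨_, hm'⟩
    have hd : F.natDegree ≤ D := by
      rw [MvPolynomial.natDegree_finSuccEquiv]
      exact (MvPolynomial.degreeOf_le_totalDegree f 0).trans hf
    have e : c + (r + 1) * (a * D) = c + r * (a * D) + a * D := by ring
    rw [e] at hK ⊢
    have h2 : ∀ y' : Fin r → Y, #{y ∈ ({y : Fin (r + 1) → Y | τ ^ (c + r * (a * D) + a * D) ∣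
        MvPolynomial.eval (fun i => p (y i)) f} : Finset _) | Fin.tail y = y'} ≤
        (if τ ^ (c + r * (a * D)) ∣ MvPolynomial.eval (fun i => p (y' i)) (F.coeff (m 0)) then
          Fintype.card Y else 0) + q * D := fun y' => by
      refine (card_le_card_of_injOn (t := {y0 | τ ^ (c + r * (a * D) + a * D) ∣
        (F.map (MvPolynomial.eval fun i => p (y' i))).eval (p y0)}) (fun y => y 0) (fun y hy => ?_)
          fun y hy z hz e => ?_).trans ?_
      · simp only [coe_filter, mem_filter, mem_univ, true_and, Set.mem_ofPred_eq] at hy ⊢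
        rw [← MvPolynomial.eval_eq_eval_mv_eval', ← hy.2]
        convert hy.1 using 3
        funext i
        refine Fin.cases rfl (fun _ => rfl) i
      · rw [← Fin.cons_self_tail y, ← Fin.cons_self_tail z, (mem_filter.1 hy).2, (mem_filter.1 hz).2]
        have e' : y 0 = z 0 := e
        rw [e']
      · split_ifs with hb
        · exact (card_le_univ _).trans (Nat.le_add_right _ _)
        · rw [zero_add]
          refine one h hp hK (natDegree_map_le.trans hd) fun e => hb ?_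
          have := (C_dvd_iff_dvd_coeff _ _).1 e (m 0)
          rwa [coeff_map] at this
    rw [card_eq_sum_card_fiberwise (f := Fin.tail) (t := univ) fun _ _ => mem_univ _]
    refine (Nat.mul_le_mul_right _ (sum_le_sum fun y' _ => h2 y')).trans ?_
    rw [sum_add_distrib, ← sum_filter, sum_const, sum_const, smul_eq_mul, smul_eq_mul, card_univ,
      Fintype.card_fun, Fintype.card_fin]
    refine (Nat.mul_le_mul_right _ (Nat.add_le_add_right h1 _)).trans (le_of_eq (by ring))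

theorem digits (h : Vr τ K) {u : Λ} (hu : IsUnit u) (e M : ℕ) (hK : 2 * e ≤ K) :
    Pts τ (fun a : Fin (e + M) → F2 => ∑ k, ((a k).val : Λ) * (u * τ ^ 2) ^ k.val)
      (fun a i => a (Fin.castAdd M i)) (2 * e) (2 ^ M) := by
  refine ⟨fun a b hab hd => ?_, fun z => ?_⟩
  · obtain ⟨i, hi⟩ := Function.ne_iff.1 hab
    obtain ⟨k, hk, hmin⟩ := exists_min_image (univ.filter fun k => a k ≠ b k) id
      ⟨_, mem_filter.2 ⟨mem_univ _, hi⟩⟩
    have k1 : k.val < e := lt_of_le_of_lt (hmin _ (mem_filter.2 ⟨mem_univ _, hi⟩)) i.2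
    have f2 : ∀ x y : F2, x ≠ y → (x.val = 1 ∧ y.val = 0) ∨ (x.val = 0 ∧ y.val = 1) := by decide
    have hd1 : IsUnit (((a k).val : Λ) - (b k).val) := by
      rcases f2 _ _ (mem_filter.1 hk).2 with h1 | h1 <;> simp [h1.1, h1.2]
    have h1 := (pow_dvd_pow τ (by omega : 2 * k.val + 1 ≤ 2 * e + 1)).trans hd
    rw [← sum_sub_distrib, ← add_sum_erase _ _ (mem_univ k), dvd_add_left, ← sub_mul, mul_pow,
      ← mul_assoc, (hd1.mul (hu.pow _)).dvd_mul_left, ← pow_mul] at h1
    · exact h.not_dvd (Nat.lt_succ_self _) (by omega) h1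
    · refine dvd_sum fun l hl => ?_
      by_cases e1 : a l = b l
      · simp [e1]
      · have h2 : k.val < l.val := Fin.lt_def.1
          (lt_of_le_of_ne (hmin l (mem_filter.2 ⟨mem_univ _, e1⟩)) (ne_of_mem_erase hl).symm)
        rw [← sub_mul, mul_pow, ← pow_mul]
        exact ((pow_dvd_pow τ (by omega)).mul_left _).mul_left _
  · refine (card_le_card_of_injOn (t := univ) (fun (a : Fin (e + M) → F2) j => a (Fin.natAdd e j))
      (fun _ _ => mem_univ _) fun a ha b hb e1 => _root_.funext fun k => ?_).trans (by simp)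
    refine Fin.addCases (fun i => ?_) (fun j => congrFun e1 j) k
    exact congrFun ((mem_filter.1 ha).2.trans (mem_filter.1 hb).2.symm) i

theorem vr {st : Λ →+* Λ} {au : Λ →+* F2} {g : Λ} {n : ℕ} (h : LG st au g (2 ^ (n + 1))) :
    Vr (g - 1) (2 ^ n) := by
  have nil : IsNilpotent (g - 1) := ⟨_, h.lr.nil⟩
  refine ⟨nil, fun x hx => ?_, fun e => ?_⟩
  · have f2 : ∀ y : F2, y ≠ 0 → y - 1 = 0 := by decide
    obtain ⟨w, hw⟩ := (h.lr.ker (x - 1)).1 (by
      rw [map_sub, map_one]; exact f2 _ fun e => hx ((h.lr.ker x).1 e))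
    rw [eq_add_of_sub_eq' hw]
    exact ((Commute.all _ w).isNilpotent_mul_right nil).isUnit_one_add
  · have h1 : ∀ j : ℕ, (g - 1) ^ 2 ^ j = g ^ 2 ^ j - 1 := fun j => by
      induction j with
      | zero => simp
      | succ j ih =>
        rw [pow_succ, pow_mul, pow_mul, ih]
        linear_combination (1 - g ^ 2 ^ j) * h.lr.two
    have h2 : ∀ k : ZMod (2 ^ (n + 1)), cv g (Pi.single k 1) = g ^ k.val := fun k => by
      rw [cv, sum_eq_single k (fun l _ hl => by simp [hl]) (by simp)]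
      simp [ZMod.val_one]
    have h3 : ((2 ^ n : ℕ) : ZMod (2 ^ (n + 1))).val = 2 ^ n :=
      ZMod.val_cast_of_lt (Nat.pow_lt_pow_right one_lt_two n.lt_succ_self)
    have h4 := h.bij.1 ((h2 (2 ^ n : ℕ)).trans ((by
      rw [h3, ZMod.val_zero, pow_zero, ← sub_eq_zero, ← h1, e] :
        g ^ ((2 ^ n : ℕ) : ZMod (2 ^ (n + 1))).val = g ^ (0 : ZMod (2 ^ (n + 1))).val).trans
          (h2 0).symm))
    have h5 : (0 : ZMod (2 ^ (n + 1))) ≠ (2 ^ n : ℕ) := fun e => by
      rw [← e, ZMod.val_zero] at h3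
      exact (Nat.two_pow_pos n).ne h3
    have h6 := congrFun h4 0
    rw [Pi.single_eq_of_ne h5, Pi.single_eq_same] at h6
    exact zero_ne_one h6

theorem cnt (h : Vr τ K) {u : Λ} (hu : IsUnit u) {c D r e M : ℕ} (hK : c + r * (2 * e * D) ≤ K)
    (hK' : 2 * e ≤ K) {σ : Type} [Fintype σ] [DecidableEq σ] (hr : Fintype.card σ ≤ r)
    {f : MvPolynomial σ Λ} (hf : f.totalDegree ≤ D) (hm : ∃ m, ¬τ ^ c ∣ f.coeff m) :
    Nat.card {a : σ → Fin (e + M) → F2 //
      MvPolynomial.eval (fun i => ∑ k, ((a i k).val : Λ) * (u * τ ^ 2) ^ k.val) f = 0} * 2 ^ e ≤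
      r * D * Nat.card (σ → Fin (e + M) → F2) := by
  classical
  obtain ⟨m, hm⟩ := hm
  set E := Fintype.equivFin σ
  have h1 := many h (digits h hu e M hK') c D (Fintype.card σ)
    ((Nat.add_le_add_left (Nat.mul_le_mul_right _ hr) _).trans hK) (MvPolynomial.rename E f)
    ((MvPolynomial.totalDegree_rename_le _ _).trans hf)
    ⟨m.mapDomain E, by rwa [MvPolynomial.coeff_rename_mapDomain _ E.injective]⟩
  have h2 : Fintype.card (Fin (e + M) → F2) = 2 ^ e * 2 ^ M := by simp [pow_add]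
  rw [Nat.card_eq_fintype_card, Fintype.card_subtype, Nat.card_eq_fintype_card,
    Fintype.card_fun (α := σ)]
  refine Nat.le_of_mul_le_mul_right ?_ (Nat.two_pow_pos M)
  rw [mul_assoc, ← h2]
  refine le_trans (Nat.mul_le_mul_right _ (card_le_card_of_injOn (fun a i => a (E.symm i))
    (fun a ha => ?_) fun a _ b _ e1 => funext fun i => ?_)) (h1.trans ?_)
  · simp only [coe_filter, mem_univ, true_and, Set.mem_ofPred_eq] at ha ⊢
    rw [MvPolynomial.eval_rename]
    simp only [Function.comp_def, Equiv.symm_apply_apply, ha, dvd_zero]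
  · simpa using congrFun e1 (E i)
  · exact (Nat.mul_le_mul_right _ (Nat.mul_le_mul_right _ hr)).trans (le_of_eq (by ring))

end SZ

theorem rowSZ : SSZ := by
  intro r D c ε hε
  obtain ⟨e, he⟩ := pow_unbounded_of_one_lt ((r * D : ℕ) / ε) (one_lt_two (α := ℝ))
  refine ⟨c + r * (2 * e * D) + 2 * e + 1, fun n Λ σ _ _ _ st au g f hn h hr hf hm => ?_⟩
  obtain ⟨n, rfl⟩ : ∃ k, n = k + 1 := ⟨n - 1, by omega⟩
  have h1 : n < 2 ^ n := Nat.lt_two_pow_self
  have h2 : g + st g = st g * (g - 1) ^ 2 := by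
    linear_combination (-g) * h.sg + st g * g * h.lr.two
  obtain ⟨M, hM⟩ := Nat.exists_eq_add_of_le (by omega : e ≤ 2 ^ n)
  have h3 := SZ.cnt (M := M) (SZ.vr h) (IsUnit.of_mul_eq_one g h.sg) (by omega : _ ≤ 2 ^ n)
    (by omega : 2 * e ≤ 2 ^ n) hr hf hm
  rw [Nat.add_sub_cancel, h2]
  generalize 2 ^ n = L at hM
  subst hM
  rw [div_lt_iff₀ hε] at he
  refine le_of_mul_le_mul_right ((Nat.cast_le (α := ℝ)).2 h3 |>.trans' (by simp) |>.trans ?_)
    (by positivity : (0 : ℝ) < 2 ^ e)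
  rw [Nat.cast_mul, mul_right_comm, mul_comm ε]
  exact mul_le_mul_of_nonneg_right he.le (Nat.cast_nonneg _)

end Pool.Agent.MP_1246c0_nt.H25
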